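import Pool.Agent.H217.CF.Spec

/-!
# SURJ: words in which all letters of `A` occur
-/

set_option autoImplicit false

namespace Pool.Agent.H337.CF

open Finset Pool.Agent.H217.CF

variable {ι : Type} [Fintype ι] [DecidableEq ι]

/-- the words avoiding `I` -/
theorem avoid (p : ι → ℝ) (I : Finset ι) (n : ℕ) :
    ∑ ψ : Fin n → ι, (∏ a ∈ I, (if ∀ x, ψ x ≠ a then (1 : ℝ) else 0)) * ∏ x, p (ψ x) =
      (∑ i, if i ∈ I then 0 else p i) ^ n := by
  rw [Fintype.sum_pow]
  refine Finset.sum_congr rfl fun ψ _ => ?_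
  by_cases h : ∃ x, ψ x ∈ I
  · obtain ⟨x, hx⟩ := h
    have h1 : ∏ a ∈ I, (if ∀ x, ψ x ≠ a then (1 : ℝ) else 0) = 0 := by
      refine Finset.prod_eq_zero hx ?_
      rw [if_neg]
      intro h2
      exact h2 x rfl
    have h2 : ∏ x, (if ψ x ∈ I then (0 : ℝ) else p (ψ x)) = 0 := by
      refine Finset.prod_eq_zero (Finset.mem_univ x) ?_
      rw [if_pos hx]
    rw [h1, h2, zero_mul]
  · push Not at h
    have h1 : ∏ a ∈ I, (if ∀ x, ψ x ≠ a then (1 : ℝ) else 0) = 1 := by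
      refine Finset.prod_eq_one fun a ha => ?_
      rw [if_pos]
      intro x hx
      exact h x (hx ▸ ha)
    rw [h1, one_mul]
    refine Finset.prod_congr rfl fun x _ => ?_
    rw [if_neg (h x)]

/-- inclusion-exclusion -/
theorem K_eq (p : ι → ℝ) (A : Finset ι) (n : ℕ) :
    (∑ ψ : Fin n → ι, if (∀ a ∈ A, ∃ x, ψ x = a) then ∏ x, p (ψ x) else 0) =
      ∑ I ∈ A.powerset, (-1 : ℝ) ^ I.card * (∑ i, if i ∈ I then 0 else p i) ^ n := by
  have h1 : ∀ ψ : Fin n → ι, (if (∀ a ∈ A, ∃ x, ψ x = a) then ∏ x, p (ψ x) else 0) =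
      ∑ I ∈ A.powerset, (-1 : ℝ) ^ I.card *
        ((∏ a ∈ I, (if ∀ x, ψ x ≠ a then (1 : ℝ) else 0)) * ∏ x, p (ψ x)) := by
    intro ψ
    have h2 : (if (∀ a ∈ A, ∃ x, ψ x = a) then (1 : ℝ) else 0) =
        ∏ a ∈ A, ((1 : ℝ) - (if ∀ x, ψ x ≠ a then (1 : ℝ) else 0)) := by
      by_cases h : ∀ a ∈ A, ∃ x, ψ x = a
      · rw [if_pos h]
        symm
        refine Finset.prod_eq_one fun a ha => ?_
        obtain ⟨x, hx⟩ := h a ha
        rw [if_neg, sub_zero]
        intro h2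
        exact h2 x hx
      · rw [if_neg h]
        push Not at h
        obtain ⟨a, ha, h2⟩ := h
        symm
        refine Finset.prod_eq_zero ha ?_
        rw [if_pos h2, sub_self]
    have h3 : (if (∀ a ∈ A, ∃ x, ψ x = a) then ∏ x, p (ψ x) else 0) =
        (if (∀ a ∈ A, ∃ x, ψ x = a) then (1 : ℝ) else 0) * ∏ x, p (ψ x) := by
      split_ifs
      · rw [one_mul]
      · rw [zero_mul]
    rw [h3, h2, Finset.prod_sub, Finset.sum_mul]
    refine Finset.sum_congr rfl fun I _ => ?_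
    rw [Finset.prod_const_one, mul_one, mul_assoc]
  rw [Finset.sum_congr rfl fun ψ _ => h1 ψ, Finset.sum_comm]
  refine Finset.sum_congr rfl fun I _ => ?_
  rw [← Finset.mul_sum, avoid]

/-- the sum of the exponential series -/
theorem exp_eq (p : ι → ℝ) (A : Finset ι) (z : ℝ) :
    ∑ I ∈ A.powerset, (-1 : ℝ) ^ I.card * Real.exp ((∑ i, if i ∈ I then 0 else p i) * z) =
      ∏ i, (if i ∈ A then Real.exp (p i * z) - 1 else Real.exp (p i * z)) := by
  have h1 : ∏ i, (if i ∈ A then Real.exp (p i * z) - 1 else Real.exp (p i * z)) =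
      (∏ i ∈ A, (Real.exp (p i * z) - 1)) * ∏ i ∈ univ \ A, Real.exp (p i * z) := by
    rw [Finset.prod_ite]
    congr 1
    · refine Finset.prod_congr ?_ fun _ _ => rfl
      ext i
      simp
    · refine Finset.prod_congr ?_ fun _ _ => rfl
      ext i
      simp
  rw [h1, Finset.prod_sub, Finset.sum_mul]
  refine Finset.sum_congr rfl fun I hI => ?_
  have hIA := Finset.mem_powerset.1 hI
  rw [Finset.prod_const_one, mul_one, mul_assoc]
  congr 1
  have h2 : (∏ i ∈ A \ I, Real.exp (p i * z)) * ∏ i ∈ univ \ A, Real.exp (p i * z) =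
      ∏ i ∈ univ \ I, Real.exp (p i * z) := by
    rw [← Finset.prod_union]
    · refine Finset.prod_congr ?_ fun _ _ => rfl
      ext i
      simp only [mem_union, mem_sdiff, mem_univ, true_and]
      constructor
      · rintro (h | h)
        · exact h.2
        · exact fun h3 => h (hIA h3)
      · intro h
        by_cases hA : i ∈ A
        · exact Or.inl ⟨hA, h⟩
        · exact Or.inr hA
    · rw [Finset.disjoint_left]
      intro i h3 h4
      exact (Finset.mem_sdiff.1 h4).2 (Finset.mem_sdiff.1 h3).1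
  rw [h2, ← Real.exp_sum, ← Finset.sum_mul]
  congr 2
  rw [Finset.sum_ite, Finset.sum_const_zero, zero_add]
  refine Finset.sum_congr ?_ fun _ _ => rfl
  ext i
  simp

theorem s_surj : S_surj := by
  intro ι _ _ p hp A s z hz
  have hs : ∀ x : ℝ, HasSum (fun n : ℕ => x ^ n / (n.factorial : ℝ)) (Real.exp x) := by
    intro x
    rw [Real.exp_eq_exp_ℝ]
    exact NormedSpace.expSeries_div_hasSum_exp x
  have h1 : HasSum (fun n : ℕ => ∑ I ∈ A.powerset, (-1 : ℝ) ^ I.card *
      (((∑ i, if i ∈ I then 0 else p i) * z) ^ n / (n.factorial : ℝ)))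
      (∑ I ∈ A.powerset, (-1 : ℝ) ^ I.card * Real.exp ((∑ i, if i ∈ I then 0 else p i) * z)) :=
    hasSum_sum fun I _ => (hs _).mul_left _
  rw [exp_eq] at h1
  have h2 : ∀ n : ℕ, ∑ I ∈ A.powerset, (-1 : ℝ) ^ I.card *
      (((∑ i, if i ∈ I then 0 else p i) * z) ^ n / (n.factorial : ℝ)) =
      (∑ ψ : Fin n → ι, if (∀ a ∈ A, ∃ x, ψ x = a) then ∏ x, p (ψ x) else 0) *
        (z ^ n / (n.factorial : ℝ)) := by
    intro n
    rw [K_eq, Finset.sum_mul]
    refine Finset.sum_congr rfl fun I _ => ?_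
    rw [mul_pow]
    ring
  have h3 : ∀ n : ℕ, 0 ≤ ∑ ψ : Fin n → ι, if (∀ a ∈ A, ∃ x, ψ x = a) then ∏ x, p (ψ x) else 0 := by
    intro n
    refine Finset.sum_nonneg fun ψ _ => ?_
    split_ifs
    · exact Finset.prod_nonneg fun x _ => hp _
    · exact le_rfl
  simp_rw [h2] at h1
  have h4 := le_hasSum h1 s (fun n _ => mul_nonneg (h3 n) (by positivity))
  have hf : (0 : ℝ) < (s.factorial : ℝ) := by exact_mod_cast s.factorial_pos
  have hzs : 0 < z ^ s := pow_pos hz s
  have h5 : 0 < (s.factorial : ℝ) / z ^ s := div_pos hf hzs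
  have h6 := mul_le_mul_of_nonneg_left h4 h5.le
  have h7 : ∀ K : ℝ, (s.factorial : ℝ) / z ^ s * (K * (z ^ s / (s.factorial : ℝ))) = K := by
    intro K
    field_simp
  rw [h7] at h6
  exact h6

end Pool.Agent.H337.CF
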